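import Mathlib
import Pool.Agent.Q10.BasicField

/-!
# A basic ring which is not F-noetherian
-/

namespace Pool.Agent.Results.MP_42b5d3_al.BasicNotFNoetherian

/-- The basic condition for left modules: whenever `M` is a finitely generated left `R`-module and
some left module `A` admits both an epimorphism `f : A → M` and a monomorphism `i : A → M`, the map
`f` is an isomorphism. -/
def LeftBasic (R : Type) [Ring R] : Prop :=
  ∀ (M A : Type) [AddCommGroup M] [Module R M] [AddCommGroup A] [Module R A],
    Module.Finite R M → ∀ f i : A →ₗ[R] M, Function.Surjective f → Function.Injective i →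
      Function.Bijective f

/-- `R` is basic: the condition holds for left modules and for right modules (that is, left modules
over the opposite ring). -/
def Basic (R : Type) [Ring R] : Prop := LeftBasic R ∧ LeftBasic Rᵐᵒᵖ

/-- A ring is noetherian if it is both left and right noetherian. -/
def Noetherian (R : Type) [Ring R] : Prop := IsNoetherianRing R ∧ IsNoetherianRing Rᵐᵒᵖ

/-- `R` is F-noetherian: each finite subset of `R` lies in some noetherian subring of `R`. -/
def FNoetherian (R : Type) [Ring R] : Prop :=
  ∀ S : Set R, S.Finite → ∃ T : Subring R, S ⊆ T ∧ Noetherian T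

/-- It is enough to consider surjections from submodules. -/
theorem leftBasic_of {R : Type} [Ring R]
    (h : ∀ (M : Type) [AddCommGroup M] [Module R M], Module.Finite R M → ∀ (N : Submodule R M)
      (f : N →ₗ[R] M), Function.Surjective f → Function.Injective f) : LeftBasic R := by
  intro M A _ _ _ _ hM f i hf hi
  refine ⟨?_, hf⟩
  let e : A ≃ₗ[R] LinearMap.range i := LinearEquiv.ofInjective i hi
  have h1 : Function.Surjective (f.comp e.symm.toLinearMap) := hf.comp e.symm.surjective
  have h2 := h M hM _ _ h1
  intro a b hab
  apply e.injective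
  apply h2
  change f (e.symm (e a)) = f (e.symm (e b))
  rw [e.symm_apply_apply, e.symm_apply_apply, hab]

/-- There is a basic ring that is not F-noetherian. -/
theorem result : ∃ (R : Type) (_ : Ring R), Basic R ∧ ¬ FNoetherian R := by
  refine ⟨Q10.BasicRing.R, inferInstance, ⟨leftBasic_of ?_, leftBasic_of ?_⟩, ?_⟩
  · intro M _ _ hM N f hf
    exact Q10.BasicRing.orzech Q10.BasicRing.algebraic f hf
  · intro M _ _ hM N f hf
    have := Q10.BasicRing.right_noetherian (σ := Q10.BasicRing.σ)
    have : IsNoetherian Q10.BasicRing.Rᵐᵒᵖ M := inferInstance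
    exact IsNoetherian.injective_of_surjective_of_submodule f hf
  · intro h
    obtain ⟨T, hT, hT', -⟩ := h {Q10.BasicRing.SR.X, Q10.BasicRing.SR.ι
      (Q10.BasicRing.mo (toLex (Finsupp.single 0 1)))} (by simp)
    exact Q10.BasicRing.not_noetherian T (hT (by simp)) (hT (by simp)) hT'

end Pool.Agent.Results.MP_42b5d3_al.BasicNotFNoetherian
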